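import Pool.Agent.Q256.Pis.Prop

/-!
# A positive proportion of arbitrary blocks

Let `M` be a nonnegative unimodular irreducible Pisot matrix with Perron eigenvalue `lam`, positive
left eigenvector `ell` and right eigenvector `u` of sum one, and let `σ` be any substitution with
incidence matrix `M ^ s`, `s ≥ 1`, which satisfies the super coincidence condition
(`SuperCoincidence`, `Pool/Agent/Q256/Pis/Abs.lean`). `Disc u B ρ`: all prefixes of the images of
the letters under `ρ` have discrepancy at most `B`.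

For every `B` above a constant there are `ε > 0` and `K₀` such that the following holds for all
`K ≥ K₀`, ALL `n ≥ 0` and ALL substitutions `τ` with incidence matrix `M ^ n` and discrepancy at
most `B`: replace, in all images `τ a`, every letter `x` by the word `σ ^ K x`, except at most
`ε |τ|` of the `|τ| = ∑ |τ a|` positions, where `x` is replaced by `ρ x` for an arbitrary
substitution `ρ` with incidence matrix `M ^ (s K)` and discrepancy at most `B`, depending on the
position. The substitution `recoding id τ ω` obtained in this way (`ω x` is the substitution used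
at the position `x`) is unimodular irreducible Pisot, satisfies the super coincidence condition,
and is semi-conjugate to a minimal toral translation. Note that `ε` does not depend on `K`, `n`, `τ`.
-/

set_option autoImplicit false

namespace Pool.Agent.Results.MP_e732b0_an.PositiveProportion

open Pool.Agent.H812R2.PI Pool.Agent.Q256.Pis

/-- all prefixes of the images of the letters have discrepancy at most `B` -/
def Disc {m : ℕ} (u : Fin (m+1) → ℝ) (B : ℝ) (ρ : Fin (m+1) → List (Fin (m+1))) : Prop :=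
  ∀ a k i, |(((ρ a).take k).count i : ℝ) - (((ρ a).take k).length : ℝ) * u i| ≤ B

/-- unimodular irreducible Pisot, super coincidence, semi-conjugate to a toral translation -/
def Good {m : ℕ} (ell : Fin (m+1) → ℝ) (S : Fin (m+1) → List (Fin (m+1))) : Prop :=
  PisotMat (inc S) ∧ SuperCoincidence (inc S) ell S ∧ SemiConjToral S

theorem disc_to {m : ℕ} {M : Matrix (Fin (m+1)) (Fin (m+1)) ℤ} (P : PD M)
    {B : ℝ} {ρ : Fin (m+1) → List (Fin (m+1))} (h : Disc P.u B ρ) (a : Fin (m+1)) (k : ℕ) :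
    P.N (rv (ab ((ρ a).take k))) ≤ P.c * B := by
  apply P.N_le
  intro i
  have h1 : ∑ j, rv (ab ((ρ a).take k)) j = (((ρ a).take k).length : ℝ) := by
    have := ab_sum ((ρ a).take k)
    simp only [rv]
    exact_mod_cast this
  rw [h1]
  exact h a k i

theorem disc_of {m : ℕ} {M : Matrix (Fin (m+1)) (Fin (m+1)) ℤ} (P : PD M)
    {B : ℝ} {ρ : Fin (m+1) → List (Fin (m+1))} (h : ∀ a k, P.N (rv (ab ((ρ a).take k))) ≤ B) :
    Disc P.u (P.c * B) ρ := by
  intro a k i
  have h1 : ∑ j, rv (ab ((ρ a).take k)) j = (((ρ a).take k).length : ℝ) := by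
    have := ab_sum ((ρ a).take k)
    simp only [rv]
    exact_mod_cast this
  have h2 := P.le_cN (rv (ab ((ρ a).take k))) i
  rw [h1] at h2
  exact h2.trans (mul_le_mul_of_nonneg_left (h a k) P.c_pos.le)

theorem result {m : ℕ} (M : Matrix (Fin (m+1)) (Fin (m+1)) ℤ) (hnn : ∀ i j, 0 ≤ M i j)
    (hM : PisotMat M) (lam : ℝ) (hlam : 1 < lam) (ell : Fin (m+1) → ℝ) (hpos : ∀ i, 0 < ell i)
    (hell : ∀ j, ∑ i, ell i * (M i j : ℝ) = lam * ell j)
    (u : Fin (m+1) → ℝ) (hu : ∀ i, ∑ j, (M i j : ℝ) * u j = lam * u i) (hus : ∑ i, u i = 1)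
    (s : ℕ) (hs : 1 ≤ s) (σ : Fin (m+1) → List (Fin (m+1))) (hσ : inc σ = M ^ s)
    (hsc : SuperCoincidence (inc σ) ell σ) :
    ∃ B₁ : ℝ, ∀ B ≥ B₁, ∃ ε : ℝ, 0 < ε ∧ ∃ K₀ : ℕ, ∀ K ≥ K₀,
      ∀ (n : ℕ) (τ : Fin (m+1) → List (Fin (m+1))), inc τ = M ^ n → Disc u B τ →
        ∀ ω : Pos τ → (Fin (m+1) → List (Fin (m+1))),
          (∀ x, inc (ω x) = M ^ (s * K) ∧ Disc u B (ω x)) →
          ({x | ω x ≠ iter σ K}.ncard : ℝ) ≤ ε * Fintype.card (Pos τ) →
          Good ell (recoding id τ ω) := by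
  classical
  obtain ⟨P, hPu, hPlam⟩ := exists_PD M hnn hM lam hlam u hu hus
  have hdet : IsUnit M.det := by
    rcases hM.2.1 with h | h <;> rw [h] <;> simp
  obtain ⟨t, ht, hP⟩ := ell_prop P ell (by rw [hPlam]; exact hell) hpos
  have hσne : ∀ a, σ a ≠ [] := JList_ne_nil (P.pow s hs) σ hσ
  have key : ∀ (A : Matrix (Fin (m+1)) (Fin (m+1)) ℤ) (Q : PD A), (∀ i, Q.ell i = P.ell i) →
      ∀ S : Fin (m+1) → List (Fin (m+1)), inc S = A → (SuperCoincidence (inc S) ell S ↔
        ∀ (a b : Fin (m+1)) (v : Fin (m+1) → ℤ), 0 < Q.OV (0, a) (v, b) →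
          ∃ k, Common (iter S k) a b v) := by
    intro A Q hQ S hS
    subst hS
    exact sc_iff Q ell ht (fun i => by rw [hP, hQ]) S
  have hsc' := (key (M ^ s) (P.pow s hs) (fun i => rfl) σ hσ).1 hsc
  obtain ⟨Bσ, hBσ0, hBσ⟩ := prefix_exists P σ
  have hcσ : Com P (inc σ) (P.lam ^ s) (P.rho ^ s) := by
    rw [hσ]
    exact (Com.self P hnn).pow s
  have hrs : P.rho ^ s < 1 := pow_lt_one₀ P.rho_nonneg P.rho_lt (by omega)
  refine ⟨P.c * (Bσ / (1 - P.rho ^ s) + ∑ b, P.N (rv (ev b))), fun B hB => ?_⟩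
  have hσB : ∀ K, Disc P.u B (iter σ K) := fun K a k i =>
    (disc_of P (prefix_iter hcσ hrs hBσ K) a k i).trans hB
  have hB0 : 0 ≤ P.c * |B| := mul_nonneg P.c_pos.le (abs_nonneg _)
  have habs : ∀ ρ, Disc P.u B ρ → Disc P.u |B| ρ := fun ρ h a k i =>
    (h a k i).trans (le_abs_self B)
  obtain ⟨ε, hε, K₀, hK₀⟩ := prop_main P hnn hdet s hs σ hσne (fun a b v hO => hsc' a b v hO)
    (P.c * |B|) hB0
  refine ⟨ε, hε, max 1 K₀, fun K hK n τ hτ hτB ω hω hfew => ?_⟩
  have hk1 : 1 ≤ K := le_trans (le_max_left _ _) hK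
  have hsK : 1 ≤ s * K := Nat.mul_pos (by omega) (by omega)
  rw [← hPu] at hτB
  obtain ⟨g1, g2, g3⟩ := hK₀ K (le_trans (le_max_right _ _) hK)
    (by rw [inc_iter, hσ, ← pow_mul]) n τ hτ (fun a k => disc_to P (habs _ hτB) a k) ω
    (fun x => (hω x).1) (fun x a k => disc_to P (habs _ (by rw [hPu]; exact (hω x).2)) a k)
    (fun a k => disc_to P (habs _ (hσB K)) a k) hfew
  have hinc : inc (recoding id τ ω) = M ^ (s * K + n) := by
    have h1 : inc (recoding id τ ω) = M ^ (s * K) * inc τ := by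
      have h2 : recoding id τ ω = recoding (Subtype.val : {R : Fin (m+1) → List (Fin (m+1)) //
          inc R = M ^ (s * K)} → _) τ (fun x => ⟨ω x, (hω x).1⟩) := rfl
      rw [h2]
      exact inc_recoding (fun j => j.2) τ _ ⟨iter σ K, by rw [inc_iter, hσ, ← pow_mul]⟩
    rw [h1, hτ, pow_add]
  exact ⟨g1, (key (M ^ (s * K + n)) (P.pow _ (by omega)) (fun i => rfl) _ hinc).2
    (fun a b v hO => g2 a b v hO), g3⟩

end Pool.Agent.Results.MP_e732b0_an.PositiveProportion
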