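import Pool.Agent.Q256.Pis.LocMain

/-!
# Random local recodings of an arbitrary substitution

Let `M` be a nonnegative unimodular irreducible Pisot matrix with Perron eigenvalue `lam`, positive
left eigenvector `ell` and right eigenvector `u` of sum one. `Disc u B ρ` says that all prefixes of
the images of the letters under `ρ` have discrepancy at most `B` (number of letters `i` minus length
times `u i`).

(1) For every `T` there is a `B` such that ALL compositions, of any length, of substitutions with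
incidence matrices `M ^ i`, `1 ≤ i ≤ T`, have this property (in particular all powers of all
substitutions with incidence matrix `M`).

(2) Let `σ` be any substitution with incidence matrix `M ^ s`, `s ≥ 1`, which satisfies the super
coincidence condition (`SuperCoincidence`, `Pool/Agent/Q256/Pis/Abs.lean`; for large `s` such `σ`
exist for every `M`). For every `B` there is a `K₀` such that for `K ≥ K₀`, every finite family
`R j`, `j ∈ J`, of substitutions with incidence matrix `M ^ (s K)` and discrepancy at most `B` which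
contains `σ ^ K`, and every probability `p` on `J` which charges `σ ^ K` (however little), there are
`c > 0` and `n₀` with the following property. Let `n ≥ n₀`, let `τ` be ANY substitution with
incidence matrix `M ^ n` and discrepancy at most `B`, and recode it at random: at every position
`(a, q)` of `τ` the letter `x = (τ a)_q` is replaced by `R j x`, with `j` chosen at random with
probability `p j`, independently at all positions. The probability that the substitution obtained
is not a unimodular irreducible Pisot substitution with the super coincidence condition which is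
semi-conjugate to a minimal toral translation is at most `exp (- c lam ^ n)`.
-/

set_option autoImplicit false

namespace Pool.Agent.Results.MP_e732b0_an.RandomRecodings

open Pool.Agent.H812R2.PI Pool.Agent.Q256.Pis

/-- all prefixes of the images of the letters have discrepancy at most `B` -/
def Disc {m : ℕ} (u : Fin (m+1) → ℝ) (B : ℝ) (ρ : Fin (m+1) → List (Fin (m+1))) : Prop :=
  ∀ a k i, |(((ρ a).take k).count i : ℝ) - (((ρ a).take k).length : ℝ) * u i| ≤ B

/-- unimodular irreducible Pisot, super coincidence, semi-conjugate to a toral translation -/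
def Good {m : ℕ} (ell : Fin (m+1) → ℝ) (S : Fin (m+1) → List (Fin (m+1))) : Prop :=
  PisotMat (inc S) ∧ SuperCoincidence (inc S) ell S ∧ SemiConjToral S

open Classical in
/-- the probability that the random recoding of `τ` by the family `R` is not good -/
noncomputable def badProb {m : ℕ} (ell : Fin (m+1) → ℝ) {J : Type} [Fintype J]
    (R : J → Fin (m+1) → List (Fin (m+1))) (p : J → ℝ) (τ : Fin (m+1) → List (Fin (m+1))) : ℝ :=
  ∑ ω : Pos τ → J, if Good ell (recoding R τ ω) then 0 else ∏ x, p (ω x)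

theorem disc_to {m : ℕ} {M : Matrix (Fin (m+1)) (Fin (m+1)) ℤ} (P : PD M)
    {B : ℝ} {ρ : Fin (m+1) → List (Fin (m+1))} (h : Disc P.u B ρ) (a : Fin (m+1)) (k : ℕ) :
    P.N (rv (ab ((ρ a).take k))) ≤ P.c * B := by
  apply P.N_le
  intro i
  have h1 : ∑ j, rv (ab ((ρ a).take k)) j = (((ρ a).take k).length : ℝ) := by
    have := ab_sum ((ρ a).take k)
    simp only [rv]
    exact_mod_cast this
  rw [h1]
  exact h a k i

theorem disc_of {m : ℕ} {M : Matrix (Fin (m+1)) (Fin (m+1)) ℤ} (P : PD M)
    {B : ℝ} {ρ : Fin (m+1) → List (Fin (m+1))} (h : ∀ a k, P.N (rv (ab ((ρ a).take k))) ≤ B) :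
    Disc P.u (P.c * B) ρ := by
  intro a k i
  have h1 : ∑ j, rv (ab ((ρ a).take k)) j = (((ρ a).take k).length : ℝ) := by
    have := ab_sum ((ρ a).take k)
    simp only [rv]
    exact_mod_cast this
  have h2 := P.le_cN (rv (ab ((ρ a).take k))) i
  rw [h1] at h2
  exact h2.trans (mul_le_mul_of_nonneg_left (h a k) P.c_pos.le)

theorem result {m : ℕ} (M : Matrix (Fin (m+1)) (Fin (m+1)) ℤ) (hnn : ∀ i j, 0 ≤ M i j)
    (hM : PisotMat M) (lam : ℝ) (hlam : 1 < lam) (ell : Fin (m+1) → ℝ) (hpos : ∀ i, 0 < ell i)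
    (hell : ∀ j, ∑ i, ell i * (M i j : ℝ) = lam * ell j)
    (u : Fin (m+1) → ℝ) (hu : ∀ i, ∑ j, (M i j : ℝ) * u j = lam * u i) (hus : ∑ i, u i = 1) :
    (∀ T : ℕ, ∃ B : ℝ, ∀ l : List (Fin (m+1) → List (Fin (m+1))),
      (∀ ρ ∈ l, ∃ i, 1 ≤ i ∧ i ≤ T ∧ inc ρ = M ^ i) → Disc u B (compList l)) ∧
    ∀ s : ℕ, 1 ≤ s → ∀ σ : Fin (m+1) → List (Fin (m+1)), inc σ = M ^ s →
      SuperCoincidence (inc σ) ell σ → ∀ B : ℝ, ∃ K₀ : ℕ, ∀ K ≥ K₀,
      ∀ (J : Type) [Fintype J] (R : J → Fin (m+1) → List (Fin (m+1))) (j₀ : J),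
        (∀ j, inc (R j) = M ^ (s * K) ∧ Disc u B (R j)) → R j₀ = iter σ K →
        ∀ p : J → ℝ, (∀ j, 0 ≤ p j) → ∑ j, p j = 1 → 0 < p j₀ →
        ∃ c : ℝ, 0 < c ∧ ∃ n₀ : ℕ, ∀ n ≥ n₀, ∀ τ : Fin (m+1) → List (Fin (m+1)),
          inc τ = M ^ n → Disc u B τ → badProb ell R p τ ≤ Real.exp (-(c * lam ^ n)) := by
  classical
  obtain ⟨P, hPu, hPlam⟩ := exists_PD M hnn hM lam hlam u hu hus
  have hdet : IsUnit M.det := by
    rcases hM.2.1 with h | h <;> rw [h] <;> simp
  obtain ⟨t, ht, hP⟩ := ell_prop P ell (by rw [hPlam]; exact hell) hpos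
  have hr : 0 < 1 - P.rho := by linarith [P.rho_lt]
  refine ⟨fun T => ?_, fun s hs σ hσ hsc B => ?_⟩
  · obtain ⟨BF, hBF⟩ : ∃ BF : ℝ, BF = ∑ i ∈ Finset.range (T + 1),
        P.c * ∑ a, ∑ b, ((M ^ i) a b : ℝ) := ⟨_, rfl⟩
    have hterm : ∀ i ∈ Finset.range (T + 1), 0 ≤ P.c * ∑ a, ∑ b, ((M ^ i) a b : ℝ) := by
      intro i _
      refine mul_nonneg P.c_pos.le (Finset.sum_nonneg fun a _ => Finset.sum_nonneg fun b _ => ?_)
      exact_mod_cast GFin_pow_nonneg M hnn i a b
    have hBF0 : 0 ≤ BF := by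
      rw [hBF]
      exact Finset.sum_nonneg hterm
    refine ⟨P.c * (BF / (1 - P.rho) + ∑ a, P.N (rv (ev a))), fun l hl => ?_⟩
    rw [← hPu]
    refine disc_of P fun a k => ?_
    refine (Pool.Agent.TH100.Pisot.fac_prefix P l BF hBF0 (fun ρ hρ => ?_) a k).trans ?_
    · obtain ⟨i, hi1, hiT, hi⟩ := hl ρ hρ
      refine ⟨⟨i, hi1, hi⟩, fun a k => ?_⟩
      have h1 := JFin_BT (P.pow i hi1) (GFin_pow_nonneg M hnn i) ρ hi a k
      have h2 := Finset.single_le_sum hterm (Finset.mem_range.2 (Nat.lt_succ_of_le hiT))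
      rw [hBF]
      exact le_trans h1 h2
    · have := Finset.single_le_sum (f := fun a => P.N (rv (ev a)))
        (fun a _ => P.N_nonneg _) (Finset.mem_univ a)
      linarith
  · have hσne : ∀ a, σ a ≠ [] := JList_ne_nil (P.pow s hs) σ hσ
    have hB0 : 0 ≤ P.c * |B| := mul_nonneg P.c_pos.le (abs_nonneg _)
    have key : ∀ (A : Matrix (Fin (m+1)) (Fin (m+1)) ℤ) (Q : PD A), (∀ i, Q.ell i = P.ell i) →
        ∀ S : Fin (m+1) → List (Fin (m+1)), inc S = A → (SuperCoincidence (inc S) ell S ↔
          ∀ (a b : Fin (m+1)) (v : Fin (m+1) → ℤ), 0 < Q.OV (0, a) (v, b) →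
            ∃ k, Common (iter S k) a b v) := by
      intro A Q hQ S hS
      subst hS
      exact sc_iff Q ell ht (fun i => by rw [hP, hQ]) S
    have hsc' := (key (M ^ s) (P.pow s hs) (fun i => rfl) σ hσ).1 hsc
    obtain ⟨K₀, hK₀⟩ := local_main P hnn hdet s σ hσne (fun a b v hO => hsc' a b v hO)
      (P.c * |B|) hB0
    refine ⟨K₀, fun K hK J _ R j₀ hR hRj p hp hsum hpj => ?_⟩
    have habs : ∀ ρ, Disc u B ρ → Disc P.u |B| ρ := fun ρ h a k i => by
      rw [hPu]
      exact (h a k i).trans (le_abs_self B)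
    obtain ⟨c, hc, n₀, hn₀⟩ := hK₀ K hK J R j₀ (fun j => (hR j).1)
      (fun j a k => disc_to P (habs _ (hR j).2) a k) hRj p hp hsum hpj
    refine ⟨c, hc, max 1 n₀, fun n hn τ hτ hτB => ?_⟩
    have hn1 : 1 ≤ n := le_trans (le_max_left _ _) hn
    have h1 := hn₀ n (le_trans (le_max_right _ _) hn) τ hτ
      (fun a k => disc_to P (habs _ hτB) a k)
      (fun ω => ¬ Good ell (recoding R τ ω)) (fun ω hω hcon => hω ?_)
    · rw [hPlam] at h1
      refine le_trans (le_of_eq ?_) h1
      unfold badProb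
      refine Finset.sum_congr rfl fun ω _ => ?_
      by_cases h : Good ell (recoding R τ ω)
      · rw [if_pos h, if_neg (not_not.2 h)]
      · rw [if_neg h, if_pos h]
    · obtain ⟨g1, g2, g3⟩ := hcon
      have hinc : inc (recoding R τ ω) = M ^ (s * K + n) := by
        rw [inc_recoding (fun j => (hR j).1) τ ω j₀, hτ, pow_add]
      exact ⟨g1, (key (M ^ (s * K + n)) (P.pow _ (by omega)) (fun i => rfl) _ hinc).2
        (fun a b v hO => g2 a b v hO), g3⟩

end Pool.Agent.Results.MP_e732b0_an.RandomRecodings
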