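import Pool.Agent.Q256.Pis.Main

/-!
# Every substitution with the super coincidence condition absorbs everything that commutes with it

Let `M` be a nonnegative unimodular irreducible Pisot matrix with positive left Perron eigenvector
`ell`, and let `σ` be a substitution with incidence matrix `M ^ n`, `n ≥ 1`.
`SuperCoincidence (inc σ) ell σ` (`Pool/Agent/Q256/Pis/Abs.lean`) is the super (or geometric)
coincidence condition of Ito-Rao and Barge-Kwapisz: whenever the projections of two lattice edges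
(of type `a` at `0` and of type `b` at `v ∈ ℤ^d`) to the expanding line overlap, i.e.
`⟨ell, v⟩ < ell a` and `0 < ⟨ell, v⟩ + ell b`, their images under some power of `σ` have a common
edge: `σ^k a = p c s`, `σ^k b = q c t` with `ab p = (inc σ)^k v + ab q`.

(1) For every `M` such a `σ` exists for all large `n`.

(2) Let `F` be any finite set of substitutions whose incidence matrices are unimodular and commute
with that of `σ` (nothing else: they need not be Pisot, primitive or irreducible, the order of the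
letters is arbitrary; `F` may contain the identity). There is a `K` such that every composition

`α₁ σ^{k₁} α₂ σ^{k₂} ⋯ α_r σ^{k_r} β`,  `r ≥ 1`, `α_i, β ∈ F`, `k_i ≥ K`,

is a unimodular irreducible Pisot substitution, satisfies the super coincidence condition, and is
semi-conjugate to a minimal toral translation. `blocks σ [(α₁,k₁),…]` is `α₁ σ^{k₁} α₂ σ^{k₂} ⋯`.
-/

set_option autoImplicit false

namespace Pool.Agent.Results.MP_e732b0_an.SuperCoincidenceAbsorbs

open Pool.Agent.H812R2.PI Pool.Agent.Q256.Pis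

theorem result {m : ℕ} (M : Matrix (Fin (m+1)) (Fin (m+1)) ℤ) (hnn : ∀ i j, 0 ≤ M i j)
    (hM : PisotMat M) (lam : ℝ) (ell : Fin (m+1) → ℝ) (hpos : ∀ i, 0 < ell i)
    (hell : ∀ j, ∑ i, ell i * (M i j : ℝ) = lam * ell j) :
    (∃ n₀ : ℕ, 1 ≤ n₀ ∧ ∀ n ≥ n₀, ∃ σ : Fin (m+1) → List (Fin (m+1)), inc σ = M ^ n ∧
      SuperCoincidence (inc σ) ell σ) ∧
    ∀ n : ℕ, 1 ≤ n → ∀ σ : Fin (m+1) → List (Fin (m+1)), inc σ = M ^ n →
      SuperCoincidence (inc σ) ell σ →
      ∀ F : Set (Fin (m+1) → List (Fin (m+1))), F.Finite →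
      (∀ α ∈ F, inc α * inc σ = inc σ * inc α ∧ IsUnit (inc α).det) →
      ∃ K : ℕ, ∀ l : List ((Fin (m+1) → List (Fin (m+1))) × ℕ), l ≠ [] →
        (∀ p ∈ l, p.1 ∈ F ∧ K ≤ p.2) → ∀ β ∈ F,
          PisotMat (inc (comp (blocks σ l) β)) ∧
          SuperCoincidence (inc (comp (blocks σ l) β)) ell (comp (blocks σ l) β) ∧
          SemiConjToral (comp (blocks σ l) β) := by
  obtain ⟨P, t, ht, hP⟩ := exists_pd_ell M hnn hM lam ell hpos hell
  have hdet : IsUnit M.det := by
    rcases hM.2.1 with h | h <;> rw [h] <;> simp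
  constructor
  · obtain ⟨n₀, hn₀, h⟩ := exists_sc M hnn P
    refine ⟨n₀, hn₀, fun n hn => ?_⟩
    obtain ⟨σ, hσ, hsc⟩ := h n hn
    refine ⟨σ, hσ, ?_⟩
    have h1n : 1 ≤ n := le_trans hn₀ hn
    have : ∀ (A : Matrix (Fin (m+1)) (Fin (m+1)) ℤ) (Q : PD A), inc σ = A → (∀ i, Q.ell i = P.ell i) →
        (∀ (a b : Fin (m+1)) (v : Fin (m+1) → ℤ), 0 < Q.OV (0, a) (v, b) →
          ∃ k, Common (iter σ k) a b v) → SuperCoincidence (inc σ) ell σ := by
      intro A Q hA hQ h1
      subst hA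
      exact (sc_iff Q ell ht (fun i => by rw [hP, hQ]) σ).2 h1
    exact this _ (P.pow n h1n) hσ (fun i => rfl) (fun a b v hO => hsc a b v hO)
  · intro n hn σ hσ hsc F hF hFc
    have key : ∀ (A : Matrix (Fin (m+1)) (Fin (m+1)) ℤ) (Q : PD A), IsUnit A.det → inc σ = A →
        (∀ i, Q.ell i = P.ell i) → ∃ K : ℕ, ∀ l : List ((Fin (m+1) → List (Fin (m+1))) × ℕ),
          l ≠ [] → (∀ p ∈ l, p.1 ∈ F ∧ K ≤ p.2) → ∀ β ∈ F,
          PisotMat (inc (comp (blocks σ l) β)) ∧
          SuperCoincidence (inc (comp (blocks σ l) β)) ell (comp (blocks σ l) β) ∧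
          SemiConjToral (comp (blocks σ l) β) := by
      intro A Q hA1 hA hQ
      subst hA
      have hQ' : ∀ i, ell i = t * Q.ell i := fun i => by rw [hP, hQ]
      obtain ⟨K, hK⟩ := master Q hA1 σ rfl ((sc_iff Q ell ht hQ' σ).1 hsc) F hF hFc
      refine ⟨K, fun l hl hlF β hβ => ?_⟩
      obtain ⟨h1, h2, h3⟩ := hK l hl hlF β hβ
      exact ⟨h1, (sc_iff Q ell ht hQ' _).2 h2, h3⟩
    exact key (M ^ n) (P.pow n hn) (by rw [Matrix.det_pow]; exact hdet.pow n) hσ fun i => rfl

end Pool.Agent.Results.MP_e732b0_an.SuperCoincidenceAbsorbs
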