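import Pool.Agent.Q256.Pis.Zero

/-!
# A zero-one law for random compositions of substitutions

Let `M` be a nonnegative unimodular irreducible Pisot matrix with positive left Perron eigenvector
`ell`, and let `f i`, `i ∈ ι`, be an ARBITRARY finite family of substitutions whose incidence
matrices are powers `M ^ e`, `e ≥ 1` (the exponents may differ, the order of the letters is
arbitrary, `M` itself is allowed), with arbitrary probabilities `p i`. Suppose that SOME composition
`f w₁ ∘ ⋯ ∘ f w_r` of positive probability satisfies the super coincidence condition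
(`SuperCoincidence`, `Pool/Agent/Q256/Pis/Abs.lean`). Then the probability that the composition
`f g₁ ∘ ⋯ ∘ f g_k` of `k` independent random members of the family is not a unimodular irreducible
Pisot substitution with the super coincidence condition which is semi-conjugate to a minimal toral
translation is at most `C exp (- c k)`.

So for every finite family either no composition satisfies the super coincidence condition, or all
but an exponentially small proportion satisfy it, and satisfy the Pisot substitution conjecture.
-/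

set_option autoImplicit false

namespace Pool.Agent.Results.MP_e732b0_an.ZeroOneLaw

open Pool.Agent.H812R2.PI Pool.Agent.Q256.Pis

/-- unimodular irreducible Pisot, super coincidence, semi-conjugate to a toral translation -/
def Good {m : ℕ} (ell : Fin (m+1) → ℝ) (S : Fin (m+1) → List (Fin (m+1))) : Prop :=
  PisotMat (inc S) ∧ SuperCoincidence (inc S) ell S ∧ SemiConjToral S

open Classical in
/-- the probability that the composition of `k` independent members is not good -/
noncomputable def badProb {m : ℕ} (ell : Fin (m+1) → ℝ) {ι : Type} [Fintype ι]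
    (f : ι → Fin (m+1) → List (Fin (m+1))) (p : ι → ℝ) (k : ℕ) : ℝ :=
  ∑ g : Fin k → ι, if Good ell (compList (List.ofFn fun j => f (g j))) then 0 else ∏ j, p (g j)

theorem result {m : ℕ} (M : Matrix (Fin (m+1)) (Fin (m+1)) ℤ) (hnn : ∀ i j, 0 ≤ M i j)
    (hM : PisotMat M) (lam : ℝ) (ell : Fin (m+1) → ℝ) (hpos : ∀ i, 0 < ell i)
    (hell : ∀ j, ∑ i, ell i * (M i j : ℝ) = lam * ell j)
    {ι : Type} [Fintype ι] (f : ι → Fin (m+1) → List (Fin (m+1)))
    (hf : ∀ i, ∃ e, 1 ≤ e ∧ inc (f i) = M ^ e)
    (p : ι → ℝ) (hp : ∀ i, 0 ≤ p i) (hsum : ∑ i, p i = 1)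
    (w : List ι) (hne : w ≠ []) (hw : ∀ i ∈ w, 0 < p i)
    (hsc : SuperCoincidence (inc (compList (w.map f))) ell (compList (w.map f))) :
    ∃ C c : ℝ, 0 < C ∧ 0 < c ∧ ∀ k : ℕ, badProb ell f p k ≤ C * Real.exp (-(c * k)) := by
  classical
  obtain ⟨P, t, ht, hP⟩ := exists_pd_ell M hnn hM lam ell hpos hell
  have hdet : IsUnit M.det := by
    rcases hM.2.1 with h | h <;> rw [h] <;> simp
  choose g hg0 hg using fun i => prefix_exists P (f i)
  obtain ⟨B, hB⟩ : ∃ B : ℝ, B = ∑ i, g i := ⟨_, rfl⟩
  have hfac : ∀ i, Pool.Agent.TH100.Pisot.Fac P B (f i) := fun i =>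
    ⟨hf i, fun a k => (hg i a k).trans (by
      rw [hB]
      exact Finset.single_le_sum (fun j _ => hg0 j) (Finset.mem_univ i))⟩
  have hfacl : ∀ l : List ι, ∀ ρ ∈ l.map f, Pool.Agent.TH100.Pisot.Fac P B ρ := by
    intro l ρ hρ
    obtain ⟨i, -, rfl⟩ := List.mem_map.1 hρ
    exact hfac i
  have hP' : ∀ i, ell i = t * P.ell i := hP
  have hσ : ∃ n, 1 ≤ n ∧ inc (compList (w.map f)) = M ^ n := by
    obtain ⟨N, hN, h⟩ := Pool.Agent.TH100.Pisot.fac_inc P B (w.map f) (hfacl w)
    refine ⟨N, ?_, h⟩
    rw [List.length_map] at hN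
    have := List.length_pos_iff.2 hne
    omega
  obtain ⟨K, hK1, hK⟩ := absorb_list P hnn hdet (compList (w.map f)) hσ
    ((sc_iff P ell ht hP' _).1 hsc) B
  obtain ⟨C, c, hC, hc, hav⟩ := avoid_le p hp hsum (List.replicate K w).flatten (by
      intro i hi
      obtain ⟨l, hl, hil⟩ := List.mem_flatten.1 hi
      rw [List.eq_of_mem_replicate hl] at hil
      exact hw i hil) (by
      intro h
      rw [List.flatten_eq_nil_iff] at h
      exact hne (h w (by rw [List.mem_replicate]; exact ⟨by omega, rfl⟩)))
  refine ⟨C, c, hC, hc, fun k => le_trans ?_ (hav k)⟩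
  unfold badProb avoid
  refine Finset.sum_le_sum fun x _ => ?_
  have hx := Finset.prod_nonneg (s := Finset.univ) fun j (_ : j ∈ Finset.univ) => hp (x j)
  by_cases hA : ∃ l₁ l₂ : List ι, List.ofFn x = l₁ ++ (List.replicate K w).flatten ++ l₂
  · obtain ⟨l₁, l₂, h⟩ := hA
    have h1 : List.ofFn (fun j => f (x j)) =
        l₁.map f ++ ((List.replicate K w).flatten).map f ++ l₂.map f := by
      have : List.ofFn (fun j => f (x j)) = (List.ofFn x).map f := by
        rw [List.map_ofFn]
        rfl
      rw [this, h, List.map_append, List.map_append]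
    have h2 : compList (((List.replicate K w).flatten).map f) =
        compList (List.replicate K (compList (w.map f))) := by
      rw [List.map_flatten, List.map_replicate, Pool.Agent.Y316.Pisot.compList_flatten,
        Pool.Agent.Y316.Pisot.compList_replicate]
    have h3 : compList (List.ofFn fun j => f (x j)) =
        compList (l₁.map f ++ List.replicate K (compList (w.map f)) ++ l₂.map f) := by
      rw [h1, compList_append, compList_append, compList_append, compList_append, h2]
    obtain ⟨g1, g2, g3⟩ := hK (l₁.map f) (l₂.map f) (by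
      intro ρ hρ
      rw [← List.map_append] at hρ
      exact hfacl _ ρ hρ)
    have hgood : Good ell (compList (List.ofFn fun j => f (x j))) := by
      rw [h3]
      exact ⟨g1, (sc_iff P ell ht hP' _).2 g2, g3⟩
    rw [if_pos hgood, if_pos ⟨l₁, l₂, h⟩]
  · rw [if_neg hA]
    split_ifs
    · exact hx
    · exact le_rfl

end Pool.Agent.Results.MP_e732b0_an.ZeroOneLaw
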